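import Pool.Agent.Helper60.SL.FromSysR
import Pool.Agent.Helper60.SL.Fin

/-!
# The fractional strong chromatic index of a graph of maximum degree `Δ` is at most `5Δ²/4`
-/

set_option autoImplicit false

namespace Pool.Agent.Results.MP_7b9cc4_co.FractionalFiveFourths

open Finset
open scoped Classical

/-- `M` is an induced matching of `G`: a set of edges, any two of which are disjoint and not
joined by an edge of `G` (every endpoint of one is different from and not adjacent to every
endpoint of the other). -/
def IsInducedMatching {V : Type} (G : SimpleGraph V) (M : Finset (Sym2 V)) : Prop :=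
  (∀ e ∈ M, e ∈ G.edgeSet) ∧
    ∀ e ∈ M, ∀ f ∈ M, e ≠ f → ∀ u ∈ e, ∀ v ∈ f, u ≠ v ∧ ¬ G.Adj u v

/-- The fractional strong chromatic index of `G` is at most `R`: there are nonnegative weights
`p M` of total at most `R` on the sets of edges, which vanish on the sets that are not induced
matchings, such that for every edge the sum of the weights of the sets containing it is at
least one. -/
def FracStrongIndexLE {V : Type} [Fintype V] (G : SimpleGraph V) (R : ℝ) : Prop :=
  ∃ p : Finset (Sym2 V) → ℝ, (∀ M, 0 ≤ p M) ∧ (∀ M, p M ≠ 0 → IsInducedMatching G M) ∧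
    ∑ M, p M ≤ R ∧ ∀ e ∈ G.edgeSet, 1 ≤ ∑ M ∈ univ.filter (fun M => e ∈ M), p M

/-- For every finite graph all of whose degrees are at most `D`, the fractional strong chromatic
index is at most `5D²/4`. -/
theorem result (V : Type) [Fintype V] (G : SimpleGraph V) (D : ℕ)
    (hdeg : ∀ x, (univ.filter (fun y => G.Adj x y)).card ≤ D) :
    FracStrongIndexLE G (5 / 4 * (D : ℝ) ^ 2) := by
  rcases Nat.eq_zero_or_pos D with hD | hD
  · subst hD
    refine ⟨fun _ => 0, fun _ => le_rfl, fun _ h => absurd rfl h, by simp, ?_⟩
    intro e he
    exfalso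
    induction e using Sym2.ind with
    | _ x y =>
      have h2 := hdeg x
      rw [Nat.le_zero, card_eq_zero] at h2
      have h3 : y ∈ univ.filter (fun y => G.Adj x y) := mem_filter.2 ⟨mem_univ _, he⟩
      rw [h2] at h3
      exact absurd h3 (notMem_empty y)
  · obtain ⟨C0, -, hR⟩ := Helper60.SL.rqf
    exact Helper60.SL.frac_of_QF False (by norm_num)
      (fun W _ H D hD _ hreg => (hR W H D hD hreg).qf) V G D hD (fun h => h.elim) hdeg

end Pool.Agent.Results.MP_7b9cc4_co.FractionalFiveFourths
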