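import Pool.Agent.Helper97.RM.Final
import Pool.Agent.Helper60.SL.Fin

/-!
# The strong chromatic index of graphs of large maximum degree is at most `(5/4 + ε) Δ²`
-/

set_option autoImplicit false

namespace Pool.Agent.Results.MP_7b9cc4_co.FiveFourthsAsymptotic

open Finset

/-- `c` is a strong edge colouring of `G` (the colour of the edge `uv` is `c u v = c v u`): any two
distinct edges which share an endpoint or have adjacent endpoints get different colours. -/
def IsStrongColouring {V : Type} (G : SimpleGraph V) (c : V → V → ℕ) : Prop :=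
  (∀ u v : V, G.Adj u v → c u v = c v u) ∧
    ∀ u v x y : V, G.Adj u v → G.Adj x y →
      ¬ ((u = x ∧ v = y) ∨ (u = y ∧ v = x)) →
      (u = x ∨ u = y ∨ v = x ∨ v = y ∨
        G.Adj u x ∨ G.Adj u y ∨ G.Adj v x ∨ G.Adj v y) →
      c u v ≠ c x y

/-- For every `ε > 0` there is `Δ₀` such that every finite graph with maximum degree at most `Δ`,
where `Δ ≥ Δ₀`, has a strong edge colouring with at most `(5/4 + ε) Δ²` colours. -/
theorem result (ε : ℝ) (hε : 0 < ε) : ∃ Δ₀ : ℕ, ∀ (V : Type) [Fintype V] [DecidableEq V]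
    (G : SimpleGraph V) [DecidableRel G.Adj] (Δ : ℕ), Δ₀ ≤ Δ → G.maxDegree ≤ Δ →
      ∃ c : V → V → ℕ, IsStrongColouring G c ∧
        ∀ u v : V, G.Adj u v → (c u v : ℝ) + 1 ≤ (5 / 4 + ε) * (Δ : ℝ) ^ 2 := by
  obtain ⟨Δ₀, h⟩ := RM.five_fourths Helper60.SL.rqf ε hε
  refine ⟨Δ₀, fun V _ _ G _ Δ hΔ hmax => ?_⟩
  obtain ⟨c, h1, h2, h3⟩ := h V G Δ hΔ (fun v => by
    refine le_trans (le_of_eq ?_) ((G.degree_le_maxDegree v).trans hmax)
    rw [← SimpleGraph.card_neighborFinset_eq_degree]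
    unfold Helper60.SL.dg
    congr 1
    ext w
    simp)
  exact ⟨c, ⟨h1, h2⟩, h3⟩

end Pool.Agent.Results.MP_7b9cc4_co.FiveFourthsAsymptotic
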