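import Pool.Agent.Helper66.SEC.Frac

/-!
# The fractional strong chromatic index of a bipartite graph
-/

set_option autoImplicit false

namespace Pool.Agent.Results.MP_7b9cc4_co.FractionalBipartite

open Finset
open scoped Classical

/-- `M` is an induced matching of `G`: a set of edges, any two of which are disjoint and not
joined by an edge of `G` (every endpoint of one is different from and not adjacent to every
endpoint of the other). -/
def IsInducedMatching {V : Type} (G : SimpleGraph V) (M : Finset (Sym2 V)) : Prop :=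
  (∀ e ∈ M, e ∈ G.edgeSet) ∧
    ∀ e ∈ M, ∀ f ∈ M, e ≠ f → ∀ u ∈ e, ∀ v ∈ f, u ≠ v ∧ ¬ G.Adj u v

/-- `G` has a fractional strong edge colouring of total weight `R`: there are `k > 0` induced
matchings (with repetitions, each given the weight `R / k`) such that every edge lies in at least
`k / R` of them, that is, receives total weight at least one. -/
def FracStrong {V : Type} (G : SimpleGraph V) (R : ℕ) : Prop :=
  ∃ (k : ℕ) (M : Fin k → Finset (Sym2 V)), 0 < k ∧ (∀ i, IsInducedMatching G (M i)) ∧
    ∀ e ∈ G.edgeSet, k ≤ R * (univ.filter (fun i => e ∈ M i)).card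

theorem local_form (V : Type) [Fintype V] (G : SimpleGraph V) (A : Finset V)
    (hA : ∀ u v, G.Adj u v → (u ∈ A ↔ v ∉ A)) (R : ℕ) (hR : 0 < R)
    (h : ∀ a ∈ A, ∑ b ∈ univ.filter (fun b => G.Adj a b),
      (univ.filter (fun c => G.Adj b c)).card ≤ R) : FracStrong G R := by
  set X := {v : V // v ∈ A} with hX
  set Y := {v : V // v ∉ A} with hY
  have h1 : ∀ x : X, ∑ y ∈ SEC.nX (fun (x : X) (y : Y) => G.Adj x.1 y.1) x,
      (SEC.nY (fun (x : X) (y : Y) => G.Adj x.1 y.1) y).card ≤ R := by
    intro x
    refine le_trans ?_ (h x.1 x.2)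
    have h2 : ∀ y : Y, (SEC.nY (fun (x : X) (y : Y) => G.Adj x.1 y.1) y).card ≤
        (univ.filter (fun c => G.Adj y.1 c)).card := by
      intro y
      refine card_le_card_of_injOn (fun x => x.1) ?_ (fun a _ b _ h => Subtype.ext h)
      intro z hz
      simpa [SEC.nY, G.adj_comm] using hz
    refine (Finset.sum_le_sum (fun y _ => h2 y)).trans ?_
    rw [← Finset.sum_image (s := SEC.nX (fun (x : X) (y : Y) => G.Adj x.1 y.1) x)
      (g := fun y : Y => y.1) (f := fun v => (univ.filter (fun c => G.Adj v c)).card)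
      (fun a _ b _ h => Subtype.ext h)]
    refine Finset.sum_le_sum_of_subset ?_
    intro v hv
    rw [mem_image] at hv
    obtain ⟨y, hy, rfl⟩ := hv
    simpa [SEC.nX] using hy
  obtain ⟨Om, hF, hN, M, hM1, hM2, hM3⟩ := SEC.frac (fun (x : X) (y : Y) => G.Adj x.1 y.1) R hR h1
  let φ : X × Y → Sym2 V := fun e => s(e.1.1, e.2.1)
  have hφ : ∀ e e' : X × Y, φ e = φ e' → e = e' := by
    intro e e' hee
    simp only [φ, Sym2.eq_iff] at hee
    rcases hee with ⟨h1, h2⟩ | ⟨h1, h2⟩
    · exact Prod.ext (Subtype.ext h1) (Subtype.ext h2)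
    · exact absurd (h1 ▸ e.1.2) e'.2.2
  refine ⟨Fintype.card Om, fun i => (M ((Fintype.equivFin Om).symm i)).image φ,
    Fintype.card_pos, ?_, ?_⟩
  · intro i
    constructor
    · intro e he
      rw [mem_image] at he
      obtain ⟨f, hf, rfl⟩ := he
      have := hM1 _ hf
      simp only [SEC.edges, mem_filter, mem_univ, true_and] at this
      exact this
    · intro e he f hf hne
      rw [mem_image] at he hf
      obtain ⟨a, ha, rfl⟩ := he
      obtain ⟨b, hb, rfl⟩ := hf
      have hab : a ≠ b := fun h => hne (by rw [h])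
      have h3 := hM2 _ a ha b hb hab
      have h4 := hM2 _ b hb a ha hab.symm
      have ha' := hM1 _ ha
      have hb' := hM1 _ hb
      simp only [SEC.edges, mem_filter, mem_univ, true_and] at ha' hb'
      dsimp only at h3 h4
      intro u hu v hv
      simp only [φ, Sym2.mem_iff] at hu hv
      rcases hu with rfl | rfl <;> rcases hv with rfl | rfl
      · refine ⟨fun h => h3 (by rw [h]; exact hb'), fun h => ?_⟩
        exact ((hA _ _ h).mp a.1.2) b.1.2
      · exact ⟨fun h => b.2.2 (h ▸ a.1.2), h3⟩
      · exact ⟨fun h => a.2.2 (h.symm ▸ b.1.2), fun h => h4 h.symm⟩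
      · refine ⟨fun h => h3 (by rw [← h]; exact ha'), fun h => ?_⟩
        have h5 := hA _ _ h
        have := a.2.2
        have := b.2.2
        tauto
  · intro e he
    induction e using Sym2.ind with
    | _ u v =>
    have huv : G.Adj u v := he
    have hex : ∃ f : X × Y, f ∈ SEC.edges (fun (x : X) (y : Y) => G.Adj x.1 y.1) ∧
        φ f = s(u, v) := by
      by_cases hu : u ∈ A
      · exact ⟨(⟨u, hu⟩, ⟨v, (hA u v huv).mp hu⟩), by simp [SEC.edges, huv], rfl⟩
      · have hv : v ∈ A := by
          by_contra hv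
          exact hu ((hA u v huv).mpr hv)
        exact ⟨(⟨v, hv⟩, ⟨u, hu⟩), by simp [SEC.edges, huv.symm], Sym2.eq_swap⟩
    obtain ⟨f, hf, hfe⟩ := hex
    refine (hM3 f hf).trans (Nat.mul_le_mul_left R ?_)
    rw [← hfe]
    refine card_le_card_of_injOn (fun w => Fintype.equivFin Om w) ?_
      (fun a _ b _ h => (Fintype.equivFin Om).injective h)
    intro w hw
    simp only [coe_filter, mem_univ, true_and, Set.mem_ofPred_eq] at hw
    simp only [coe_filter, mem_univ, true_and, Set.mem_ofPred_eq, Equiv.symm_apply_apply]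
    exact mem_image_of_mem φ hw

/-- **The fractional strong chromatic index of bipartite graphs.** Let `G` be a finite graph with
bipartition `A`, `Aᶜ`. If `∑ b ∈ N(a), d(b) ≤ R` for every `a ∈ A` then the fractional strong
chromatic index of `G` is at most `R`. -/
theorem result (V : Type) [Fintype V] (G : SimpleGraph V) (A : Finset V)
    (hA : ∀ u v, G.Adj u v → (u ∈ A ↔ v ∉ A)) (R : ℕ) (hR : 0 < R)
    (h : ∀ a ∈ A, ∑ b ∈ univ.filter (fun b => G.Adj a b),
      (univ.filter (fun c => G.Adj b c)).card ≤ R) : FracStrong G R :=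
  local_form V G A hA R hR h

end Pool.Agent.Results.MP_7b9cc4_co.FractionalBipartite
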